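import Pool.Agent.Lib.helper21.Weih

set_option autoImplicit false

namespace Pool.Agent.Results.MP_2d238a_lc.No

open Pool.Agent.Lib.helper21.Wh Pool.Agent.Lib.helper21.PR Encodable

attribute [local irreducible] Primrec Computable

theorem result (f h : ℕ → Pb) (H : ∀ n m, Le (f n) (h m)) :
    ∃ g : Pb, ∀ n m, Le (f n) g ∧ Le g (h m) := by
  have h1 : ∀ n m, ∃ d : ℕ × ℕ, ∀ p, (f n p).Nonempty → ∃ x, Maps (U d.1) p x ∧
      (h m x).Nonempty ∧ ∀ q ∈ h m x, ∃ y ∈ f n p, Maps (U d.2) (jn p q) y := fun n m => by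
    obtain ⟨A, B, c1, c2, c3⟩ := H n m
    obtain ⟨i, rfl⟩ := ex_U c1
    obtain ⟨j, rfl⟩ := ex_U c2
    exact ⟨(i, j), c3⟩
  choose d hd using h1
  let c : ℕ → ℕ := fun n => n.pair (encode ((List.range (n + 1)).map (d n)))
  have hc : ∀ n, (c n).unpair.1 = n := fun n => by simp [c]
  refine ⟨fun r => {y | r 0 = c (r 0).unpair.1 ∧ y ∈ f (r 0).unpair.1 (tl r)}, fun n m =>
    ⟨.mk (op_id.cons (op_const (c n))) (op_id.pj 1) fun p ⟨y, hy⟩ => ⟨_, (is_gr p).cons fun _ =>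
      Iff.rfl, ⟨y, congrArg c (hc n).symm, show y ∈ f (c n).unpair.1 p from (hc n).symm ▸ hy⟩,
        fun q k => ⟨q, hc n ▸ show q ∈ f (c n).unpair.1 p from k.2, is_r p q⟩⟩,
    ?_⟩⟩
  generalize hl : (List.range m).map (d · m) = l
  let ι : ℕ → ℕ × ℕ := fun a => if a.unpair.1 < m then l.getD a.unpair.1 (0, 0) else
    ((decode (α := List (ℕ × ℕ)) a.unpair.2).getD []).getD m (0, 0)
  have h2 : Primrec ι := by unfold ι; fun_prop
  have h3 : ∀ k, ι (c k) = d k m := fun k => by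
    simp only [ι, c, Nat.unpair_pair, encodek, Option.getD_some, ← hl]
    split_ifs with e
    · simp [e]
    · simp [Nat.lt_succ_of_le (not_lt.1 e)]
  refine .mk (op_id.tl.apU (p_fst h2)) (((op_id.pj 0).tl.jn (op_id.pj 1)).apU (p_snd h2))
    fun r ⟨y, a, b⟩ => ?_
  obtain ⟨x, c1, c2, c3⟩ := hd _ m _ ⟨y, b⟩
  rw [← h3, ← a] at c1 c3
  refine ⟨x, fun i v => Iff.trans (by simp [gr]) ((is_gr r).tl.ap c1 i v), c2, fun q k => ?_⟩
  obtain ⟨z, c4, c5⟩ := c3 q k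
  exact ⟨z, ⟨a, c4⟩, fun i v => Iff.trans (by simp [gr, jn])
    (((is_l r q).tl.jn (is_r r q)).ap c5 i v)⟩

end Pool.Agent.Results.MP_2d238a_lc.No
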